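import Pool.Agent.D0H15.TI.Stm2
import Pool.Agent.D0H53.TI.Nrm

set_option autoImplicit false

/-!
# TI2 4: the valuation of the norm of an ideal as a sum over the group of `M / K` (`t_NRM2`)
-/

open NumberField
open scoped Pointwise

namespace Pool.Agent.D0H10.TI

open Pool.Agent.D0H15.TI Pool.Agent.D0H53.TI

variable {K M : Type} [Field K] [NumberField K] [Field M] [NumberField M] [Algebra K M]

omit [NumberField K] [NumberField M] in
theorem smul_max2 (P : Ideal (𝓞 M)) (hP : P.IsMaximal) (g : M ≃ₐ[K] M) : (g • P).IsMaximal := by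
  rw [Ideal.pointwise_smul_eq_comap]
  exact Ideal.comap_isMaximal_of_equiv _

omit [NumberField K] [NumberField M] in
theorem mem_smul2 (p : ℕ) (P : Ideal (𝓞 M)) (hpP : (p : 𝓞 M) ∈ P) (g : M ≃ₐ[K] M) :
    (p : 𝓞 M) ∈ g • P := by
  rw [Ideal.mem_pointwise_smul_iff_inv_smul_mem]
  have : g⁻¹ • (p : 𝓞 M) = p :=
    map_natCast (MulSemiringAction.toRingHom (M ≃ₐ[K] M) (𝓞 M) g⁻¹) p
  rw [this]
  exact hpP

open scoped Classical in
/-- the case of a prime ideal -/
theorem prime_case2 [IsGalois K M] (p : ℕ) (hp : p.Prime) (r : ℕ) (q : Fin r → Ideal (𝓞 K))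
    (hinj : Function.Injective q)
    (hall : ∀ 𝔭 : Ideal (𝓞 K), 𝔭.IsMaximal → (p : 𝓞 K) ∈ 𝔭 → ∃ i, q i = 𝔭)
    (P : Fin r → Ideal (𝓞 M)) (hP : ∀ i, (P i).IsMaximal) (hpP : ∀ i, (p : 𝓞 M) ∈ P i)
    (hl : ∀ i, (P i).LiesOver (q i)) (Q : Ideal (𝓞 M)) (hQ : Q.IsMaximal) :
    ∃ w : Fin r → ℕ, (∀ i, Nat.card ((P i).inertia (M ≃ₐ[K] M)) * w i =
      ∑ g : M ≃ₐ[K] M, multiplicity (g • P i) Q) ∧
      padicValNat p (Ideal.absNorm Q) = ∑ i, (q i).inertiaDeg ℤ * w i := by
  have h1 : ∀ i (g : M ≃ₐ[K] M), multiplicity (g • P i) Q = if g • P i = Q then 1 else 0 :=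
    fun i g => mult_prime _ _ (smul_max2 (P i) (hP i) g) hQ
  simp only [h1, Finset.sum_boole]
  by_cases hpQ : (p : 𝓞 M) ∈ Q
  · have hQp : Q.IsPrime := hQ.isPrime
    set 𝔮 : Ideal (𝓞 K) := Q.under (𝓞 K) with h𝔮
    have h𝔮m : 𝔮.IsMaximal := Ideal.IsMaximal.under (𝓞 K) Q
    have h𝔮p : (p : 𝓞 K) ∈ 𝔮 := by
      change algebraMap (𝓞 K) (𝓞 M) (p : 𝓞 K) ∈ Q
      rw [map_natCast]
      exact hpQ
    obtain ⟨i0, hi0⟩ := hall 𝔮 h𝔮m h𝔮p
    have hQl : Q.LiesOver (q i0) := by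
      rw [hi0]
      exact Ideal.over_under Q
    have hqm : (q i0).IsMaximal := hi0 ▸ h𝔮m
    refine ⟨fun i => if i = i0 then Q.inertiaDeg (𝓞 K) else 0, ?_, ?_⟩
    · intro i
      beta_reduce
      by_cases hi : i = i0
      · subst hi
        rw [if_pos rfl]
        have hPp : (P i).IsPrime := (hP i).isPrime
        have hPl := hl i
        have hq0 : q i ≠ ⊥ :=
          Ring.ne_bot_of_isMaximal_of_not_isField hqm (RingOfIntegers.not_isField K)
        have hfin : Finite (𝓞 K ⧸ q i) := Ideal.finiteQuotientOfFreeOfNeBot _ hq0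
        obtain ⟨g₀, hg₀⟩ := Ideal.exists_smul_eq_of_isGaloisGroup (q i) (P i) Q (M ≃ₐ[K] M)
        have h2 : (Finset.univ.filter fun g : M ≃ₐ[K] M => g • P i = Q).card =
            Nat.card (MulAction.stabilizer (M ≃ₐ[K] M) (P i)) := by
          have e1 : Nat.card (MulAction.stabilizer (M ≃ₐ[K] M) (P i)) =
              (Finset.univ.filter fun g : M ≃ₐ[K] M => g • P i = P i).card := by
            refine Nat.subtype_card _ fun g => ?_
            rw [Finset.mem_filter, MulAction.mem_stabilizer_iff]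
            exact ⟨fun h => h.2, fun h => ⟨Finset.mem_univ _, h⟩⟩
          rw [e1]
          refine Finset.card_bij (fun g _ => g₀⁻¹ * g) ?_ ?_ ?_
          · intro g hg
            rw [Finset.mem_filter] at hg ⊢
            refine ⟨Finset.mem_univ _, ?_⟩
            rw [mul_smul, hg.2, ← hg₀, inv_smul_smul]
          · intro g _ g' _ h
            exact mul_left_cancel h
          · intro g hg
            rw [Finset.mem_filter] at hg
            refine ⟨g₀ * g, ?_, by rw [inv_mul_cancel_left]⟩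
            rw [Finset.mem_filter]
            refine ⟨Finset.mem_univ _, ?_⟩
            rw [mul_smul, hg.2, hg₀]
        have hqp : (q i).IsPrime := hqm.isPrime
        have h3 := Ideal.card_stabilizer_eq_card_inertia_mul_finrank (G := M ≃ₐ[K] M) (q i) (P i)
        have h4 := Ideal.inertiaDeg_eq_of_isGaloisGroup (q i) (P i) Q (M ≃ₐ[K] M)
        rw [h2, h3, h4]
        rfl
      · rw [if_neg hi, mul_zero]
        symm
        rw [Nat.cast_id, Finset.card_eq_zero, Finset.filter_eq_empty_iff]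
        intro g _ hg
        apply hi
        apply hinj
        have hPl := hl i
        have h5 : (g • P i).LiesOver (q i) := inferInstance
        rw [Ideal.over_def (g • P i) (q i), hg, hi0]
    · have hpz : Q.LiesOver (Ideal.span {(p : ℤ)}) := lies p hp Q hQ hpQ
      have hfact : Fact p.Prime := ⟨hp⟩
      have h5 := Ideal.pow_inertiaDeg p Q
      rw [← h5, padicValNat.prime_pow, Finset.sum_eq_single i0]
      · beta_reduce
        rw [if_pos rfl]
        exact Ideal.inertiaDeg_tower (q i0) Q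
      · intro b _ hb
        beta_reduce
        rw [if_neg hb, mul_zero]
      · intro h
        exact absurd (Finset.mem_univ _) h
  · refine ⟨fun _ => 0, ?_, ?_⟩
    · intro i
      rw [mul_zero]
      symm
      rw [Nat.cast_id, Finset.card_eq_zero, Finset.filter_eq_empty_iff]
      intro g _ hg
      apply hpQ
      rw [← hg]
      exact mem_smul2 p (P i) (hpP i) g
    · have h3 : ¬ p ∣ Ideal.absNorm Q := by
        intro hd
        obtain ⟨q, n, hn, hqQ, hq, hN⟩ := Ideal.exists_prime_and_absNorm_eq_pow Q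
        rw [hN] at hd
        have h4 : p = q := (Nat.prime_dvd_prime_iff_eq hp hq).1 (hp.dvd_of_dvd_pow hd)
        rw [← h4] at hqQ
        exact hpQ hqQ
      rw [padicValNat.eq_zero_of_not_dvd h3]
      simp

open scoped Classical in
theorem gen_case2 [IsGalois K M] (p : ℕ) (hp : p.Prime) (r : ℕ) (q : Fin r → Ideal (𝓞 K))
    (hinj : Function.Injective q)
    (hall : ∀ 𝔭 : Ideal (𝓞 K), 𝔭.IsMaximal → (p : 𝓞 K) ∈ 𝔭 → ∃ i, q i = 𝔭)
    (P : Fin r → Ideal (𝓞 M)) (hP : ∀ i, (P i).IsMaximal) (hpP : ∀ i, (p : 𝓞 M) ∈ P i)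
    (hl : ∀ i, (P i).LiesOver (q i)) (D : Ideal (𝓞 M)) : D ≠ ⊥ →
    ∃ w : Fin r → ℕ, (∀ i, Nat.card ((P i).inertia (M ≃ₐ[K] M)) * w i =
      ∑ g : M ≃ₐ[K] M, multiplicity (g • P i) D) ∧
      padicValNat p (Ideal.absNorm D) = ∑ i, (q i).inertiaDeg ℤ * w i := by
  have : Fact p.Prime := ⟨hp⟩
  induction D using UniqueFactorizationMonoid.induction_on_prime with
  | h₁ => intro h; exact absurd rfl h
  | h₂ D hD =>
    intro _
    rw [Ideal.isUnit_iff] at hD
    subst hD
    refine ⟨fun _ => 0, ?_, ?_⟩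
    · intro i
      rw [mul_zero]
      symm
      apply Finset.sum_eq_zero
      intro g _
      rw [multiplicity_eq_zero]
      intro hd
      have := Ideal.le_of_dvd hd
      exact (smul_max2 (P i) (hP i) g).ne_top (top_le_iff.1 this)
    · rw [Ideal.absNorm_top, padicValNat_one_right]
      simp
  | h₃ D Q hD hQ ih =>
    intro _
    have hQm : Q.IsMaximal := (Ideal.isPrime_of_prime hQ).isMaximal hQ.ne_zero
    obtain ⟨w1, h1, h1'⟩ := ih hD
    obtain ⟨w2, h2, h2'⟩ := prime_case2 p hp r q hinj hall P hP hpP hl Q hQm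
    have h3 : Ideal.absNorm Q ≠ 0 := Ideal.absNorm_ne_zero_iff_mem_nonZeroDivisors.2
      (mem_nonZeroDivisors_of_ne_zero hQ.ne_zero)
    have h4 : Ideal.absNorm D ≠ 0 := Ideal.absNorm_ne_zero_iff_mem_nonZeroDivisors.2
      (mem_nonZeroDivisors_of_ne_zero hD)
    refine ⟨fun i => w2 i + w1 i, ?_, ?_⟩
    · intro i
      rw [mul_add, h1, h2, ← Finset.sum_add_distrib]
      refine Finset.sum_congr rfl fun g _ => ?_
      have hPp : Prime (g • P i) := (Ideal.prime_iff_isPrime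
        (max_ne_bot _ (smul_max2 (P i) (hP i) g))).2 (smul_max2 (P i) (hP i) g).isPrime
      rw [multiplicity_mul hPp (FiniteMultiplicity.of_prime_left hPp
        (mul_ne_zero hQ.ne_zero hD))]
    · rw [_root_.map_mul, padicValNat.mul h3 h4, h1', h2', ← Finset.sum_add_distrib]
      refine Finset.sum_congr rfl fun i _ => ?_
      ring

theorem t_NRM2 : S_NRM2 := by
  classical
  intro K M _ _ _ _ _ _ p hp
  have hpm : (Ideal.span {(p : ℤ)}).IsMaximal :=
    ((Ideal.span_singleton_prime (by exact_mod_cast hp.ne_zero)).mpr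
      (Nat.prime_iff_prime_int.mp hp)).isMaximal (by simpa using hp.ne_zero)
  have hp0 : Ideal.span {(p : ℤ)} ≠ ⊥ := by simpa using hp.ne_zero
  have hfin : (Ideal.primesOver (Ideal.span {(p : ℤ)}) (𝓞 K)).Finite :=
    IsDedekindDomain.primesOver_finite _ _
  have hft : Finite (Ideal.primesOver (Ideal.span {(p : ℤ)}) (𝓞 K)) := hfin
  obtain ⟨r, ⟨e⟩⟩ := Finite.exists_equiv_fin (Ideal.primesOver (Ideal.span {(p : ℤ)}) (𝓞 K))
  set q : Fin r → Ideal (𝓞 K) := fun i => (e.symm i).1 with hq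
  have hqp : ∀ i, (q i).IsPrime := fun i => (e.symm i).2.1
  have hql : ∀ i, (q i).LiesOver (Ideal.span {(p : ℤ)}) := fun i => (e.symm i).2.2
  have hqm : ∀ i, (p : 𝓞 K) ∈ q i := by
    intro i
    have h1 : (p : ℤ) ∈ (q i).under ℤ := by
      rw [← (hql i).over]
      exact Ideal.mem_span_singleton_self _
    have h2 : algebraMap ℤ (𝓞 K) (p : ℤ) ∈ q i := h1
    rwa [eq_intCast, Int.cast_natCast] at h2
  have hinj : Function.Injective q := by
    intro i j h
    exact e.symm.injective (Subtype.ext h)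
  have hall : ∀ 𝔭 : Ideal (𝓞 K), 𝔭.IsMaximal → (p : 𝓞 K) ∈ 𝔭 → ∃ i, q i = 𝔭 := by
    intro 𝔭 h𝔭 hmem
    refine ⟨e ⟨𝔭, h𝔭.isPrime, lies p hp 𝔭 h𝔭 hmem⟩, ?_⟩
    simp [hq]
  have hP : ∀ i, ∃ P : Ideal (𝓞 M), P.IsMaximal ∧ P.LiesOver (q i) := by
    intro i
    have := hqp i
    obtain ⟨⟨P, hPp, hPl⟩⟩ : Nonempty (Ideal.primesOver (q i) (𝓞 M)) := inferInstance
    have hq0 : q i ≠ ⊥ := by
      intro h
      have := hqm i
      rw [h, Ideal.mem_bot] at this
      exact hp.ne_zero (by exact_mod_cast this)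
    have hP0 : P ≠ ⊥ := Ideal.ne_bot_of_liesOver_of_ne_bot hq0 P
    exact ⟨P, hPp.isMaximal hP0, hPl⟩
  choose P hPm hPl using hP
  have hpP : ∀ i, (p : 𝓞 M) ∈ P i := by
    intro i
    have h1 := hqm i
    rw [(hPl i).over] at h1
    have h2 : algebraMap (𝓞 K) (𝓞 M) (p : 𝓞 K) ∈ P i := h1
    rwa [map_natCast] at h2
  refine ⟨r, fun i => (q i).inertiaDeg ℤ, P, fun j => ⟨hPm j, hpP j⟩, ?_⟩
  intro D hD v hv
  obtain ⟨w, hw, hw'⟩ := gen_case2 p hp r q hinj hall P hPm hpP hPl D hD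
  refine ⟨w, ?_, hw'⟩
  intro j
  rw [hw j]
  refine Finset.sum_congr rfl fun g _ => ?_
  exact multiplicity_eq_of_dvd_of_not_dvd (hv j g).1 (hv j g).2

end Pool.Agent.D0H10.TI
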