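import Pool.Agent.D0H15.TI.Stm

set_option autoImplicit false

/-!
# TI 3: the exponent of the different of a tame prime ideal (`t_TAME : S_TAME`)
-/

open NumberField Ideal

namespace Pool.Agent.D0H10.TI

open scoped Classical in
/-- Sums over a group of a function of the image under a surjective homomorphism. -/
theorem sum_comp {D Γ R : Type*} [Group D] [Group Γ] [Fintype D] [Fintype Γ] [CommRing R]
    (φ : D →* Γ) (hφ : Function.Surjective φ) (F : Γ → R) :
    ∑ g, F (φ g) = (Nat.card φ.ker : R) * ∑ τ, F τ := by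
  rw [← Finset.sum_fiberwise_of_maps_to (g := φ) (t := Finset.univ)
    (fun _ _ => Finset.mem_univ _), Finset.mul_sum]
  refine Finset.sum_congr rfl fun τ _ => ?_
  have h1 : ∑ g with φ g = τ, F (φ g) = ∑ g with φ g = τ, F τ := by
    refine Finset.sum_congr rfl fun g hg => ?_
    rw [(Finset.mem_filter.1 hg).2]
  rw [h1, Finset.sum_const, nsmul_eq_mul]
  congr 2
  rw [MonoidHom.card_fiber_eq_of_mem_range φ (y := 1) (hφ τ) (hφ 1), Nat.card_eq_fintype_card,
    ← Fintype.card_subtype]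
  exact Fintype.card_congr (Equiv.subtypeEquivRight fun g => by simp [MonoidHom.mem_ker])

theorem smul_coe {E M : Type} [Field E] [NumberField E] [Field M] [NumberField M] [Algebra E M]
    (g : M ≃ₐ[E] M) (x : 𝓞 M) : ((g • x : 𝓞 M) : M) = g (x : M) := rfl

open scoped Pointwise in
theorem t_TAME : Pool.Agent.D0H15.TI.S_TAME := by
  classical
  intro E M _ _ _ _ _ _ P hP hi
  have hP0 : P ≠ ⊥ := Ring.ne_bot_of_isMaximal_of_not_isField hP (RingOfIntegers.not_isField M)
  have hPp : P.IsPrime := hP.isPrime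
  set p : Ideal (𝓞 E) := P.under (𝓞 E) with hp
  have hpm : p.IsMaximal := Ideal.IsMaximal.under (𝓞 E) P
  have hlo : P.LiesOver p := Ideal.over_under P
  have hp0 : p ≠ ⊥ := Ring.ne_bot_of_isMaximal_of_not_isField hpm (RingOfIntegers.not_isField E)
  have hmap0 : p.map (algebraMap (𝓞 E) (𝓞 M)) ≠ ⊥ := Ideal.map_ne_bot_of_ne_bot hp0
  let _ : Field (𝓞 E ⧸ p) := Ideal.Quotient.field p
  let _ : Field (𝓞 M ⧸ P) := Ideal.Quotient.field P
  have : Finite (𝓞 E ⧸ p) := Ideal.finiteQuotientOfFreeOfNeBot p hp0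
  have : Finite (𝓞 M ⧸ P) := Ideal.finiteQuotientOfFreeOfNeBot P hP0
  set i := Nat.card (P.inertia (M ≃ₐ[E] M)) with hidef
  obtain ⟨Q, hPQ, hfac⟩ := Ideal.eq_prime_pow_mul_coprime hmap0 P
  have hcount : Multiset.count P (UniqueFactorizationMonoid.normalizedFactors
      (p.map (algebraMap (𝓞 E) (𝓞 M)))) = i := by
    rw [← IsDedekindDomain.ramificationIdx'_eq_normalizedFactors_count hmap0 hPp hP0,
      Ideal.ramificationIdx'_eq_ramificationIdx p P hp0, hidef,
      Ideal.card_inertia_eq_ramificationIdxIn p P,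
      Ideal.ramificationIdxIn_eq_ramificationIdx p P (M ≃ₐ[E] M)]
  rw [hcount] at hfac
  have hfac' : P ^ i ∣ p.map (algebraMap (𝓞 E) (𝓞 M)) := ⟨Q, hfac⟩
  refine ⟨pow_sub_one_dvd_differentIdeal (𝓞 E) P i hp0 hfac', ?_⟩
  -- second claim
  obtain ⟨z, hz⟩ : ∃ z, Algebra.trace (𝓞 E ⧸ p) (𝓞 M ⧸ P) z ≠ 0 := by
    simpa [LinearMap.ext_iff] using Algebra.trace_ne_zero (𝓞 E ⧸ p) (𝓞 M ⧸ P)
  obtain ⟨y, rfl⟩ := Ideal.Quotient.mk_surjective z
  obtain ⟨a, ha, b, hb, hab⟩ := Submodule.mem_sup.1 ((Ideal.eq_top_iff_one _).1 hPQ)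
  set x := b * y with hx
  have hxQ : x ∈ Q := Ideal.mul_mem_right _ _ hb
  have hxy : x - y ∈ P := by
    have : x - y = -(a * y) := by rw [hx]; linear_combination y * hab
    rw [this]
    exact neg_mem (Ideal.mul_mem_right _ _ ha)
  refine not_dvd_differentIdeal_of_intTrace_not_mem (𝓞 E) (P ^ i) Q hfac.symm x hxQ ?_
  intro hmem
  have htr : algebraMap (𝓞 E) (𝓞 M) (Algebra.intTrace (𝓞 E) (𝓞 M) x) =
      ∑ g : M ≃ₐ[E] M, g • x := by
    apply RingOfIntegers.coe_injective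
    have h1 : algebraMap (𝓞 M) M (algebraMap (𝓞 E) (𝓞 M) (Algebra.intTrace (𝓞 E) (𝓞 M) x)) =
        algebraMap E M (algebraMap (𝓞 E) E (Algebra.intTrace (𝓞 E) (𝓞 M) x)) := rfl
    rw [h1, Algebra.algebraMap_intTrace (K := E) (L := M), trace_eq_sum_automorphisms, map_sum]
    rfl
  have hmem2 : (∑ g : M ≃ₐ[E] M, g • x) ∈ P := by
    rw [← htr]
    exact hmem
  rw [← Ideal.Quotient.eq_zero_iff_mem, map_sum] at hmem2
  -- elements outside the stabilizer do not contribute
  have hout : ∀ g : M ≃ₐ[E] M, g ∉ MulAction.stabilizer (M ≃ₐ[E] M) P →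
      Ideal.Quotient.mk P (g • x) = 0 := by
    intro g hg
    rw [Ideal.Quotient.eq_zero_iff_mem]
    have hne : g⁻¹ • P ≠ P := by
      intro h
      apply hg
      rw [MulAction.mem_stabilizer_iff]
      rw [← h, smul_inv_smul, h]
    have hle : p.map (algebraMap (𝓞 E) (𝓞 M)) ≤ g⁻¹ • P := by
      have : (g⁻¹ • P).LiesOver p := inferInstance
      rw [Ideal.map_le_iff_le_comap]
      exact (Ideal.over_def (g⁻¹ • P) p).le
    have : (g⁻¹ • P).IsPrime := inferInstance
    rw [hfac] at hle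
    rcases (Ideal.IsPrime.mul_le inferInstance).1 hle with h | h
    · exfalso
      have h2 : P ≤ g⁻¹ • P := Ideal.IsPrime.le_of_pow_le h
      exact hne (hP.eq_of_le (Ideal.IsPrime.ne_top inferInstance) h2).symm
    · have h3 : x ∈ g⁻¹ • P := h hxQ
      rw [Ideal.mem_inv_pointwise_smul_iff] at h3
      exact h3
  have hin : ∀ g : MulAction.stabilizer (M ≃ₐ[E] M) P,
      Ideal.Quotient.mk P ((g : M ≃ₐ[E] M) • x) =
        Ideal.Quotient.stabilizerHom P p (M ≃ₐ[E] M) g (Ideal.Quotient.mk P y) := by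
    intro g
    change _ = Ideal.Quotient.mk P ((g : M ≃ₐ[E] M) • y)
    rw [Ideal.Quotient.eq, ← smul_sub]
    have h4 : (g : M ≃ₐ[E] M) • (x - y) ∈ (g : M ≃ₐ[E] M) • P :=
      Ideal.smul_mem_pointwise_smul _ _ _ hxy
    rwa [g.2] at h4
  have hsplit : ∑ g : M ≃ₐ[E] M, Ideal.Quotient.mk P (g • x) =
      ∑ g : MulAction.stabilizer (M ≃ₐ[E] M) P,
        Ideal.Quotient.mk P ((g : M ≃ₐ[E] M) • x) := by
    have h5 : ∑ g : M ≃ₐ[E] M, Ideal.Quotient.mk P (g • x) =
        ∑ g : M ≃ₐ[E] M with g ∈ MulAction.stabilizer (M ≃ₐ[E] M) P,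
          Ideal.Quotient.mk P (g • x) :=
      (Finset.sum_filter_of_ne fun g _ h => by_contra fun h' => h (hout g h')).symm
    rw [h5]
    exact Finset.sum_subtype _ (by simp) _
  rw [hsplit, Finset.sum_congr rfl fun g _ => hin g,
    sum_comp (Ideal.Quotient.stabilizerHom P p (M ≃ₐ[E] M))
      (Ideal.Quotient.stabilizerHom_surjective (M ≃ₐ[E] M) p P)
      (fun τ => τ (Ideal.Quotient.mk P y)),
    ← trace_eq_sum_automorphisms] at hmem2
  rcases mul_eq_zero.1 hmem2 with h | h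
  · apply hi
    have hcard : Nat.card (Ideal.Quotient.stabilizerHom P p (M ≃ₐ[E] M)).ker = i := by
      rw [hidef, ← Ideal.Quotient.map_ker_stabilizer_subtype (P := P) (p := p)
        (G := M ≃ₐ[E] M)]
      exact (Subgroup.card_map_of_injective (Subgroup.subtype_injective _)).symm
    rw [hcard] at h
    rw [← Ideal.Quotient.eq_zero_iff_mem, map_natCast]
    exact h
  · exact hz ((map_eq_zero_iff _ (algebraMap (𝓞 E ⧸ p) (𝓞 M ⧸ P)).injective).1 h)

end Pool.Agent.D0H10.TI
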